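import Mathlib

namespace Pool.Agent.Results.MP_aad82b_nt.LastDigitNine

/-- Zhang's question: there is an integer `n ≥ 2` whose last decimal digit is `9` and with
`2 ^ (n - 2) ≡ 1 (mod n)`; the witness is `n = 1210344599`. -/
theorem result : ∃ n : ℕ, 2 ≤ n ∧ n % 10 = 9 ∧ 2 ^ (n - 2) ≡ 1 [MOD n] := by
  refine ⟨1210344599, by norm_num, by norm_num, ?_⟩
  have h : ((2 : ℕ) : ZMod 1210344599) ^ (1210344597 : ℕ) = ((1 : ℕ) : ZMod 1210344599) := by
    push_cast
    reduce_mod_char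
  have h2 : ((2 ^ (1210344597 : ℕ) : ℕ) : ZMod 1210344599) = ((1 : ℕ) : ZMod 1210344599) := by
    rw [Nat.cast_pow]; exact h
  have h3 := (ZMod.natCast_eq_natCast_iff _ _ _).1 h2
  have e : (1210344599 : ℕ) - 2 = 1210344597 := by norm_num
  rw [e]; exact h3

end Pool.Agent.Results.MP_aad82b_nt.LastDigitNine
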